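import Pool.Agent.Q190.RV.Gen

/-!
# The row-valued von Neumann inequality does not imply the matrix-valued one

For the Hardy space `H²` of the unit ball of `ℂ²`, i.e. the Hilbert space with reproducing kernel
`(1 - ⟨z,w⟩)⁻²`, and the commuting pair `T_i = e_i ⊗ e_0^*` on `ℂ³`, the row inequality holds for
all row polynomials, but `T` is not `Mult(H²)`-contractive.
-/

set_option autoImplicit false

open ComplexConjugate

namespace Pool.Agent.Results.MP_59d57e_an.RowInequalityNotEnough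

noncomputable section

/-- `p × m` matrices of polynomials in `d` variables -/
abbrev MatPoly (d p m : ℕ) : Type := Matrix (Fin p) (Fin m) (MvPolynomial (Fin d) ℂ)

section mult

variable {d : ℕ} {Ω : Set (Fin d → ℂ)} (H : Type) [NormedAddCommGroup H] [InnerProductSpace ℂ H]
  [RKHS ℂ H Ω ℂ]

/-- `C` is a bound for the norm of the operator `H ⊗ ℂ^m → H ⊗ ℂ^p` of multiplication by `P`:
for all `f_1, …, f_m` in `H` the functions `∑_j P_ij f_j` belong to `H` and
`∑_i ‖∑_j P_ij f_j‖² ≤ C² ∑_j ‖f_j‖²`. -/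
def MultBound {p m : ℕ} (P : MatPoly d p m) (C : ℝ) : Prop :=
  ∀ f : Fin m → H, ∃ g : Fin p → H,
    (∀ (i : Fin p) (z : Ω), g i z = ∑ j, MvPolynomial.eval z.1 (P i j) * f j z) ∧
    ∑ i, ‖g i‖ ^ 2 ≤ C ^ 2 * ∑ j, ‖f j‖ ^ 2

/-- The coordinate functions are multipliers of `H`. -/
def CoordinatesAreMultipliers : Prop :=
  ∀ i : Fin d, ∃ C : ℝ, 0 ≤ C ∧ MultBound H (fun (_ _ : Fin 1) => MvPolynomial.X i) C

end mult

section operators

variable {d : ℕ} {E : Type} [NormedAddCommGroup E] [InnerProductSpace ℂ E]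

/-- The monomial `T_1^{α_1} ⋯ T_d^{α_d}`. -/
def monomialOf (T : Fin d → (E →L[ℂ] E)) (α : Fin d →₀ ℕ) : E →L[ℂ] E :=
  (List.ofFn fun i => T i ^ α i).prod

/-- The operator `p(T)`. -/
def polyOf (T : Fin d → (E →L[ℂ] E)) (p : MvPolynomial (Fin d) ℂ) : E →L[ℂ] E :=
  ∑ α ∈ p.support, p.coeff α • monomialOf T α

/-- `C` is a bound for the norm of the operator `P(T) : E^m → E^p`. -/
def OpBound (T : Fin d → (E →L[ℂ] E)) {p m : ℕ} (P : MatPoly d p m) (C : ℝ) : Prop :=
  ∀ x : Fin m → E, ∑ i, ‖∑ j, polyOf T (P i j) (x j)‖ ^ 2 ≤ C ^ 2 * ∑ j, ‖x j‖ ^ 2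

end operators

section inequalities

variable {d : ℕ} {Ω : Set (Fin d → ℂ)} (H : Type) [NormedAddCommGroup H] [InnerProductSpace ℂ H]
  [RKHS ℂ H Ω ℂ] {E : Type} [NormedAddCommGroup E] [InnerProductSpace ℂ E]

/-- The inequality (*) `‖P(T)‖ ≤ ‖P‖_Mult`: every bound `C ≥ 0` for the multiplication operator by
`P` is a bound for `P(T)`. -/
def NormInequality (T : Fin d → (E →L[ℂ] E)) {p m : ℕ} (P : MatPoly d p m) : Prop :=
  ∀ C : ℝ, 0 ≤ C → MultBound H P C → OpBound T P C

/-- `T` satisfies the row inequality: (*) holds for all `1 × m` polynomials, `m ≥ 1`. -/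
def RowInequality (T : Fin d → (E →L[ℂ] E)) : Prop :=
  ∀ m : ℕ, 1 ≤ m → ∀ P : MatPoly d 1 m, NormInequality H T P

/-- `T` is `Mult(H)`-contractive: (*) holds for all `m × m` polynomials, `m ≥ 1`. -/
def MultContractive (T : Fin d → (E →L[ℂ] E)) : Prop :=
  ∀ m : ℕ, 1 ≤ m → ∀ P : MatPoly d m m, NormInequality H T P

end inequalities

/-- The open unit ball of `ℂ²`. -/
def ball2 : Set (Fin 2 → ℂ) := {z | ‖z 0‖ ^ 2 + ‖z 1‖ ^ 2 < 1}

/-- The Szegő kernel `(1 - ⟨z,w⟩)⁻²` of the ball of `ℂ²`. -/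
def szego (z w : Fin 2 → ℂ) : ℂ := 1 / (1 - (z 0 * conj (w 0) + z 1 * conj (w 1))) ^ 2

/-- The ball is a domain. -/
lemma ball2_domain : IsOpen ball2 ∧ IsConnected ball2 := by
  constructor
  · apply isOpen_lt _ continuous_const
    fun_prop
  · have h0 : (0 : Fin 2 → ℂ) ∈ ball2 := by simp [ball2]
    have h1 : StarConvex ℝ (0 : Fin 2 → ℂ) ball2 := by
      rw [starConvex_zero_iff]
      intro z hz t ht0 ht1
      have hz' : ‖z 0‖ ^ 2 + ‖z 1‖ ^ 2 < 1 := hz
      show ‖(t • z) 0‖ ^ 2 + ‖(t • z) 1‖ ^ 2 < 1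
      simp only [Pi.smul_apply, norm_smul, Real.norm_of_nonneg ht0, mul_pow]
      have h2 : t ^ 2 ≤ 1 := by nlinarith
      have h4 : 0 ≤ ‖z 0‖ ^ 2 + ‖z 1‖ ^ 2 := by positivity
      nlinarith
    exact (h1.isPathConnected h0).isConnected

lemma poly_eq (p : MvPolynomial (Fin 2) ℂ) :
    polyOf Pool.Agent.Q190.RV.TT p = Pool.Agent.Q190.RV.polyOp Pool.Agent.Q190.RV.TT p := rfl

/-- **Negative answer to Q1.** The Szegő kernel of the ball of `ℂ²` is a reproducing kernel whose
Hilbert space `H` has the coordinate functions as multipliers, and there is a commuting pair `T` on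
`ℂ³` that satisfies the row inequality, but is not `Mult(H)`-contractive. -/
theorem result :
    IsOpen ball2 ∧ IsConnected ball2 ∧
    ∃ (H : Type) (_ : NormedAddCommGroup H) (_ : InnerProductSpace ℂ H) (_ : CompleteSpace H)
      (_ : RKHS ℂ H ball2 ℂ),
      (∀ z w : ball2, RKHS.kernel H z w 1 = szego z.1 w.1) ∧
      CoordinatesAreMultipliers H ∧
      ∃ T : Fin 2 → (EuclideanSpace ℂ (Fin 3) →L[ℂ] EuclideanSpace ℂ (Fin 3)),
        (∀ i j, Commute (T i) (T j)) ∧ RowInequality H T ∧ ¬ MultContractive H T := by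
  refine ⟨ball2_domain.1, ball2_domain.2, Pool.Agent.Q190.RV.Hardy, inferInstance, inferInstance,
    inferInstance, inferInstanceAs (RKHS ℂ Pool.Agent.Q190.RV.Hardy Pool.Agent.Q190.RV.Ball ℂ),
    fun z w => Pool.Agent.Q190.RV.hardy_kernel z w, ?_, Pool.Agent.Q190.RV.TT, ?_, ?_, ?_⟩
  · -- coordinates are multipliers
    intro i
    refine ⟨1, zero_le_one, fun f => ?_⟩
    obtain ⟨g, hg1, hg2⟩ := Pool.Agent.Q190.RV.hardy_column (f 0)
    refine ⟨fun _ => g i, fun j z => ?_, ?_⟩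
    · rw [Fin.sum_univ_one, MvPolynomial.eval_X]
      exact hg1 i z
    · rw [Fin.sum_univ_one, Fin.sum_univ_one, one_pow, one_mul]
      refine le_trans ?_ hg2
      exact Finset.single_le_sum (f := fun i => ‖g i‖ ^ 2) (fun i _ => by positivity)
        (Finset.mem_univ i)
  · intro i j
    show _ * _ = _ * _
    rw [Pool.Agent.Q190.RV.TT_mul, Pool.Agent.Q190.RV.TT_mul]
  · -- the row inequality
    intro m _ P C hC hP x
    rw [Fin.sum_univ_one]
    simp only [poly_eq]
    apply Pool.Agent.Q190.RV.row_bound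
    intro z hz
    exact Pool.Agent.Q190.RV.mult_to_sup (H := Pool.Agent.Q190.RV.Hardy)
      (⟨z, hz⟩ : Pool.Agent.Q190.RV.Ball) (Pool.Agent.Q190.RV.hardy_kernel_ne _)
      (fun j => MvPolynomial.eval z (P 0 j)) C (fun f => by
        obtain ⟨g, hg1, hg2⟩ := hP f
        refine ⟨g 0, hg1 0 ⟨z, hz⟩, ?_⟩
        rwa [Fin.sum_univ_one] at hg2)
  · -- the matrix inequality fails
    intro h
    let P : MatPoly 2 2 2 := fun i j => if j = 0 then MvPolynomial.X i else 0
    have h1 : MultBound Pool.Agent.Q190.RV.Hardy (Ω := Pool.Agent.Q190.RV.Ball) P 1 := by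
      intro f
      obtain ⟨g, hg1, hg2⟩ := Pool.Agent.Q190.RV.hardy_column (f 0)
      refine ⟨g, fun i z => ?_, ?_⟩
      · rw [Fin.sum_univ_two]
        simp only [P, if_true, MvPolynomial.eval_X, one_ne_zero, if_false, map_zero, zero_mul,
          add_zero]
        exact hg1 i z
      · rw [one_pow, one_mul]
        refine hg2.trans ?_
        exact Finset.single_le_sum (f := fun j => ‖f j‖ ^ 2) (fun i _ => by positivity)
          (Finset.mem_univ 0)
    have h2 := h 2 (by norm_num) P 1 zero_le_one h1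
      ![Pool.Agent.Q190.RV.ee 0, 0]
    have h3 : ∀ i : Fin 2, ∑ j, polyOf Pool.Agent.Q190.RV.TT (P i j)
        ((![Pool.Agent.Q190.RV.ee 0, 0] : Fin 2 → EuclideanSpace ℂ (Fin 3)) j)
        = Pool.Agent.Q190.RV.ee i.succ := by
      intro i
      rw [Fin.sum_univ_two]
      have e1 : polyOf Pool.Agent.Q190.RV.TT (P i 0) = Pool.Agent.Q190.RV.TT i := by
        rw [poly_eq, Pool.Agent.Q190.RV.polyOp_TT]
        have hne1 : (0 : Fin 2 →₀ ℕ) ≠ Finsupp.single i 1 := by
          intro h; have := DFunLike.congr_fun h i; simp at this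
        have hne3 : (Finsupp.single 0 1 : Fin 2 →₀ ℕ) ≠ Finsupp.single 1 1 := by
          intro h; have := DFunLike.congr_fun h 0; simp at this
        simp only [P, if_true, MvPolynomial.coeff_X]
        fin_cases i
        · simp [hne3]
        · simp [hne3.symm]
      rw [e1]
      simp only [Matrix.cons_val_zero, Matrix.cons_val_one, map_zero, add_zero]
      rw [Pool.Agent.Q190.RV.TT_apply]
      simp [Pool.Agent.Q190.RV.ee]
    simp_rw [h3] at h2
    rw [Fin.sum_univ_two, Fin.sum_univ_two] at h2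
    simp [Pool.Agent.Q190.RV.ee] at h2
    norm_num at h2

end

end Pool.Agent.Results.MP_59d57e_an.RowInequalityNotEnough
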